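import Pool.Agent.Helper31.OWN.Integrable

set_option autoImplicit false

/-!
# MP_e25938_co : no constant `c` makes all graphs with smallest eigenvalue `≥ -3` `c`-integrable

For every `c ≥ 1` there is a connected graph with `48 c ^ 2 + 22 c + 17` vertices and smallest
eigenvalue in `[-3, -2)` which is not `s`-integrable for any `1 ≤ s ≤ c`.
-/

namespace Pool.Agent.Results.MP_e25938_co.UnboundedIntegrability

/-- The smallest eigenvalue of the adjacency matrix of a finite simple graph: the infimum of its
real spectrum, which is a finite set, nonempty as soon as there is a vertex. -/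
noncomputable def lambdaMin {n : ℕ} (G : SimpleGraph (Fin n)) [DecidableRel G.Adj] : ℝ :=
  sInf (spectrum ℝ (G.adjMatrix ℝ))

/-- The graph `G` is `s`-integrable: `s (A - ⌊λ_min⌋ I) = N Nᵀ` for some integer matrix `N`
with any finite number of columns. -/
def Integrable (s : ℕ) {n : ℕ} (G : SimpleGraph (Fin n)) [DecidableRel G.Adj] : Prop :=
  ∃ (p : ℕ) (N : Matrix (Fin n) (Fin p) ℤ),
    (s : ℤ) • (G.adjMatrix ℤ - ⌊lambdaMin G⌋ • (1 : Matrix (Fin n) (Fin n) ℤ)) = N * N.transpose

/-- For every `c ≥ 1` there is a connected graph with `48 c ^ 2 + 22 c + 17` vertices and smallest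
eigenvalue in `[-3, -2)` which is not `s`-integrable for any `1 ≤ s ≤ c`. -/
theorem result (c : ℕ) (hc : 0 < c) :
    ∃ (n : ℕ) (G : SimpleGraph (Fin n)) (_ : DecidableRel G.Adj),
      n = 48 * c ^ 2 + 22 * c + 17 ∧ G.Connected ∧ -3 ≤ lambdaMin G ∧ lambdaMin G < -2 ∧
      ∀ s : ℕ, 0 < s → s ≤ c → ¬ Integrable s G :=
  Pool.Agent.Helper31.OWN.main_connected c hc

end Pool.Agent.Results.MP_e25938_co.UnboundedIntegrability
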